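import Pool.Agent.helper4.EC.Spec

/-!
# CF: two slides with nonadjacent targets (project EC, second prover)
-/

set_option autoImplicit false

namespace Pool.Agent.helper4.EC

open Finset

universe u

theorem CF_side {V : Type u} [DecidableEq V] {G : SimpleGraph V} {X : Finset V} {x y x' y' v : V}
    (hs : Sl G X x y) (hs' : Sl G X x' y')
    (hv : v ∉ insert y' (insert y ((X.erase x).erase x')))
    (hd : ∀ u ∈ insert y' (insert y ((X.erase x).erase x')), ¬ G.Adj u v) : G.Adj x' v := by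
  have hvy' : v ≠ y' := fun h => hv (by rw [h]; exact mem_insert_self _ _)
  have hvy : v ≠ y := fun h => hv (by rw [h]; exact mem_insert_of_mem (mem_insert_self _ _))
  have hv0 : v ∉ (X.erase x).erase x' := fun h => hv (mem_insert_of_mem (mem_insert_of_mem h))
  have hdy : ¬ G.Adj y v := hd y (mem_insert_of_mem (mem_insert_self _ _))
  have hdy' : ¬ G.Adj y' v := hd y' (mem_insert_self _ _)
  have hd0 : ∀ u ∈ (X.erase x).erase x', ¬ G.Adj u v := fun u hu =>
    hd u (mem_insert_of_mem (mem_insert_of_mem hu))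
  have hvA : v ∉ insert y (X.erase x) := by
    intro h
    rcases mem_insert.1 h with h1 | h1
    · exact hvy h1
    · by_cases h2 : v = x'
      · rw [h2] at hdy'
        exact hdy' hs'.2.2.1.symm
      · exact hv0 (mem_erase.2 ⟨h2, h1⟩)
  obtain ⟨u, hu, huv⟩ := hs.2.2.2.1.2 v hvA
  rcases mem_insert.1 hu with h1 | h1
  · rw [h1] at huv
    exact absurd huv hdy
  · by_cases h2 : u = x'
    · rw [h2] at huv
      exact huv
    · exact absurd huv (hd0 u (mem_erase.2 ⟨h2, h1⟩))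

theorem CF (h1 : SA_stmt.{u}) (h2 : C4_stmt.{u}) : CF_stmt.{u} := by
  intro V _ G hch X x y x' y' hX hs hs' hxx hyy
  obtain ⟨hx, hy, hxy, hA⟩ := id hs
  obtain ⟨hx', hy', hxy', hB⟩ := id hs'
  have hxA : x ∉ insert y (X.erase x) := by
    rw [mem_insert, mem_erase]
    rintro (h | ⟨h, -⟩)
    · exact hy (h ▸ hx)
    · exact h rfl
  have hx'y : ¬ G.Adj x' y := hA.1.1 x' (mem_insert_of_mem (mem_erase.2 ⟨hxx.symm, hx'⟩)) y
    (mem_insert_self _ _)
  have hyy' : y ≠ y' := by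
    rintro rfl
    exact hx'y hxy'
  have hyx' : y ≠ x' := by
    rintro rfl
    exact hy hx'
  have hy'x : y' ≠ x := by
    rintro rfl
    exact hy' hx
  have hy'A : y' ∉ insert y (X.erase x) := by
    rw [mem_insert, mem_erase]
    rintro (h | ⟨-, h⟩)
    · exact hyy' h.symm
    · exact hy' h
  have hyB : y ∉ insert y' (X.erase x') := by
    rw [mem_insert, mem_erase]
    rintro (h | ⟨-, h⟩)
    · exact hyy' h
    · exact hy h
  obtain ⟨Z, hZ⟩ : ∃ Z, Z = insert y' (insert y ((X.erase x).erase x')) := ⟨_, rfl⟩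
  have hZ2 : Z = insert y' ((insert y (X.erase x)).erase x') := by
    rw [hZ, erase_insert_of_ne hyx']
  have hZ3 : Z = insert y ((insert y' (X.erase x')).erase x) := by
    rw [hZ, erase_insert_of_ne hy'x, Finset.insert_comm, erase_right_comm]
  have hmem : ∀ z, z ∈ Z ↔ z = y' ∨ z = y ∨ (z ∈ X ∧ z ≠ x ∧ z ≠ x') := by
    intro z
    rw [hZ, mem_insert, mem_insert, mem_erase, mem_erase]
    tauto
  have hind : ∀ u ∈ Z, ∀ v ∈ Z, ¬ G.Adj u v := by
    intro u hu v hv
    rw [hmem] at hu hv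
    have e1 : ∀ u v, (u = y ∨ (u ∈ X ∧ u ≠ x)) → (v = y ∨ (v ∈ X ∧ v ≠ x)) → ¬ G.Adj u v := by
      intro u v hu hv
      refine hA.1.1 u ?_ v ?_
      · rw [mem_insert, mem_erase]
        tauto
      · rw [mem_insert, mem_erase]
        tauto
    have e2 : ∀ u v, (u = y' ∨ (u ∈ X ∧ u ≠ x')) → (v = y' ∨ (v ∈ X ∧ v ≠ x')) →
        ¬ G.Adj u v := by
      intro u v hu hv
      refine hB.1.1 u ?_ v ?_
      · rw [mem_insert, mem_erase]
        tauto
      · rw [mem_insert, mem_erase]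
        tauto
    rcases hu with rfl | rfl | ⟨hu1, hu2, hu3⟩
    · rcases hv with rfl | rfl | ⟨hv1, hv2, hv3⟩
      · exact G.loopless.irrefl _
      · exact fun h => hyy h.symm
      · exact e2 _ _ (Or.inl rfl) (Or.inr ⟨hv1, hv3⟩)
    · rcases hv with rfl | rfl | ⟨hv1, hv2, hv3⟩
      · exact hyy
      · exact G.loopless.irrefl _
      · exact e1 _ _ (Or.inl rfl) (Or.inr ⟨hv1, hv2⟩)
    · rcases hv with rfl | rfl | ⟨hv1, hv2, hv3⟩
      · exact e2 _ _ (Or.inr ⟨hu1, hu3⟩) (Or.inl rfl)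
      · exact e1 _ _ (Or.inr ⟨hu1, hu2⟩) (Or.inl rfl)
      · exact e1 _ _ (Or.inr ⟨hu1, hu2⟩) (Or.inr ⟨hv1, hv2⟩)
  have hcard : Z.card = X.card := by
    have c1 : y' ∉ insert y ((X.erase x).erase x') := by
      rw [mem_insert, mem_erase, mem_erase]
      rintro (h | ⟨-, -, h⟩)
      · exact hyy' h.symm
      · exact hy' h
    have c2 : y ∉ (X.erase x).erase x' := by
      rw [mem_erase, mem_erase]
      rintro ⟨-, -, h⟩
      exact hy h
    rw [hZ, card_insert_of_notMem c1, card_insert_of_notMem c2]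
    have c3 := card_erase_add_one hx
    have c4 := card_erase_add_one (mem_erase.2 ⟨hxx.symm, hx'⟩ : x' ∈ X.erase x)
    omega
  by_cases hdom : ∀ v, v ∉ Z → ∃ u ∈ Z, G.Adj u v
  · exfalso
    have hZI : IsISet G Z := ⟨⟨hind, hdom⟩, fun T hT => by rw [hcard]; exact hX.2 T hT⟩
    have a1 : (iGraph G).Adj ⟨X, hX⟩ ⟨insert y (X.erase x), hA⟩ :=
      (h1 V G _ _).2 ⟨x, y, hs, rfl⟩
    have a2 : (iGraph G).Adj ⟨insert y (X.erase x), hA⟩ ⟨Z, hZI⟩ := by
      refine (h1 V G _ _).2 ⟨x', y', ⟨?_, hy'A, hxy', ?_⟩, hZ2⟩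
      · exact mem_insert_of_mem (mem_erase.2 ⟨hxx.symm, hx'⟩)
      · show IsISet G (insert y' ((insert y (X.erase x)).erase x'))
        rw [← hZ2]
        exact hZI
    have a3 : (iGraph G).Adj ⟨insert y' (X.erase x'), hB⟩ ⟨Z, hZI⟩ := by
      refine (h1 V G _ _).2 ⟨x, y, ⟨?_, hyB, hxy, ?_⟩, hZ3⟩
      · exact mem_insert_of_mem (mem_erase.2 ⟨hxx, hx⟩)
      · show IsISet G (insert y ((insert y' (X.erase x')).erase x))
        rw [← hZ3]
        exact hZI
    have a4 : (iGraph G).Adj ⟨X, hX⟩ ⟨insert y' (X.erase x'), hB⟩ :=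
      (h1 V G _ _).2 ⟨x', y', hs', rfl⟩
    have hyZ : y ∈ Z := (hmem y).2 (Or.inr (Or.inl rfl))
    have hy'Z : y' ∈ Z := (hmem y').2 (Or.inl rfl)
    have hxB : x ∈ insert y' (X.erase x') := mem_insert_of_mem (mem_erase.2 ⟨hxx, hx⟩)
    have n1 : (⟨X, hX⟩ : {S : Finset V // IsISet G S}) ≠ ⟨Z, hZI⟩ := by
      intro h
      have h3 : X = Z := congrArg Subtype.val h
      rw [← h3] at hyZ
      exact hy hyZ
    have n2 : (⟨insert y (X.erase x), hA⟩ : {S : Finset V // IsISet G S}) ≠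
        ⟨insert y' (X.erase x'), hB⟩ := by
      intro h
      have h3 : insert y (X.erase x) = insert y' (X.erase x') := congrArg Subtype.val h
      rw [← h3] at hxB
      exact hxA hxB
    rcases (h2 _ (iGraph G) hch).1 _ _ _ _ a1 a2 a3.symm a4.symm n1 n2 with h | h
    · obtain ⟨u, v, -, h3⟩ := (h1 V G _ _).1 h
      have h3' : Z = insert v (X.erase u) := h3
      rw [h3', mem_insert, mem_erase] at hyZ hy'Z
      rcases hyZ with h4 | ⟨-, h4⟩
      · rcases hy'Z with h5 | ⟨-, h5⟩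
        · exact hyy' (h4.trans h5.symm)
        · exact hy' h5
      · exact hy h4
    · obtain ⟨u, v, -, h3⟩ := (h1 V G _ _).1 h
      have h3' : insert y' (X.erase x') = insert v ((insert y (X.erase x)).erase u) := h3
      have hy'B : y' ∈ insert y' (X.erase x') := mem_insert_self _ _
      rw [h3', mem_insert, mem_erase] at hxB hy'B
      rcases hxB with h4 | ⟨-, h4⟩
      · rcases hy'B with h5 | ⟨-, h5⟩
        · exact hy'x (h5.trans h4.symm)
        · exact hy'A h5
      · exact hxA h4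
  · push Not at hdom
    obtain ⟨v, hv, hd⟩ := hdom
    have r1 : G.Adj x' v := CF_side hs hs' (by rw [← hZ]; exact hv) (by rw [← hZ]; exact hd)
    have hZ4 : Z = insert y (insert y' ((X.erase x').erase x)) := by
      rw [hZ, Finset.insert_comm, erase_right_comm]
    have r2 : G.Adj x v := CF_side hs' hs (by rw [← hZ4]; exact hv) (by rw [← hZ4]; exact hd)
    exact ⟨v, r2, r1, hd y ((hmem y).2 (Or.inr (Or.inl rfl))), hd y' ((hmem y').2 (Or.inl rfl))⟩

end Pool.Agent.helper4.EC
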