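import Pool.Agent.helper22.EC.FF
import Pool.Agent.helper34.EC.LE

/-!
# MP_00de39_al (project EC), module SD: soundness of the certificate
-/

set_option autoImplicit false
set_option linter.unusedSectionVars false

namespace Pool.Agent.helper22.EC

open FreeGroup Cardinal

/-- finitely generated free groups are Hopfian -/
theorem hopf {n : ℕ} (f : FreeGroup (Fin n) →* FreeGroup (Fin n)) (hf : Function.Surjective f) :
    Function.Injective f := by
  rw [injective_iff_map_eq_one]
  intro g hg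
  by_contra hne
  have hw : g ∉ Subgroup.closure {x : FreeGroup (Fin n) | x ∈ ([] : List (FreeGroup (Fin n)))} := by
    simp [hne]
  obtain ⟨σ, o, _, _, h1⟩ := lerf [] g (FreeGroup.norm g + 1) (by simp) hw
  have hfin : Finite (FreeGroup (Fin n) →* Equiv.Perm (Fin (FreeGroup.norm g + 1))) :=
    Finite.of_equiv (Fin n → Equiv.Perm (Fin (FreeGroup.norm g + 1))) FreeGroup.lift
  have hinj : Function.Injective (fun φ : FreeGroup (Fin n) →*
      Equiv.Perm (Fin (FreeGroup.norm g + 1)) => φ.comp f) := by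
    intro φ ψ h
    refine MonoidHom.ext fun x => ?_
    obtain ⟨y, hy⟩ := hf x
    rw [← hy]
    exact DFunLike.congr_fun h y
  obtain ⟨φ, hφ⟩ := (Finite.injective_iff_surjective.1 hinj) (FreeGroup.lift σ)
  apply h1
  rw [← hφ]
  simp [hg]

theorem SD_hopf {ι : Type} [Finite ι] {T : Type} [Group T] (b : FreeGroupBasis ι T) (f : T →* T)
    (hf : Function.Surjective f) : Function.Injective f := by
  let e : T ≃* FreeGroup (Fin (Nat.card ι)) :=
    b.repr.trans (FreeGroup.freeGroupCongr (Finite.equivFin ι))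
  have h1 : Function.Surjective ((e.toMonoidHom.comp f).comp e.symm.toMonoidHom) := by
    intro x
    obtain ⟨y, hy⟩ := hf (e.symm x)
    exact ⟨e y, by simp [hy]⟩
  have h2 := hopf _ h1
  intro x y hxy
  have h3 : ((e.toMonoidHom.comp f).comp e.symm.toMonoidHom) (e x) =
      ((e.toMonoidHom.comp f).comp e.symm.toMonoidHom) (e y) := by
    simp [hxy]
  exact e.injective (h2 h3)

theorem SD_closure {ι : Type} {T : Type} [Group T] (b : FreeGroupBasis ι T) :
    Subgroup.closure (Set.range b) = ⊤ := by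
  have h1 : Set.range b = b.repr.symm.toMonoidHom '' (Set.range FreeGroup.of) := by
    rw [← Set.range_comp]
    rfl
  rw [h1, ← MonoidHom.map_closure, FreeGroup.closure_range_of, ← MonoidHom.range_eq_map]
  exact MonoidHom.range_eq_top.2 b.repr.symm.surjective

theorem SD_gen {G : Type} [Group G] (K : Subgroup G) (h : G)
    (N : Subgroup (K ⊔ Subgroup.zpowers h : Subgroup G))
    (hK : K.subgroupOf (K ⊔ Subgroup.zpowers h) ≤ N)
    (hh : ∀ hm, (⟨h, hm⟩ : (K ⊔ Subgroup.zpowers h : Subgroup G)) ∈ N) : N = ⊤ := by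
  have hKT : K ≤ K ⊔ Subgroup.zpowers h := le_sup_left
  have hhT : h ∈ K ⊔ Subgroup.zpowers h :=
    (le_sup_right : Subgroup.zpowers h ≤ _) (Subgroup.mem_zpowers h)
  have h1 : K ⊔ Subgroup.zpowers h ≤ N.map (Subgroup.subtype _) := by
    rw [sup_le_iff]
    constructor
    · intro k hk
      exact ⟨⟨k, hKT hk⟩, hK (by rw [Subgroup.mem_subgroupOf]; exact hk), rfl⟩
    · rw [Subgroup.zpowers_le]
      exact ⟨⟨h, hhT⟩, hh hhT, rfl⟩
  rw [eq_top_iff]
  rintro ⟨t, ht⟩ _
  obtain ⟨n, hn, hn2⟩ := h1 ht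
  have : n = ⟨t, ht⟩ := Subtype.ext hn2
  rw [← this]; exact hn

theorem ff_adj {G : Type} [Group G] [IsFreeGroup G] (A K : Subgroup G) (hA : IsFF A)
    (hK : K ≤ A) (hfg : K.FG) (h : G) (hh : h ∉ A) :
    (K ⊔ Subgroup.zpowers h) ⊓ A = K ∧ rk (K ⊔ Subgroup.zpowers h) ≤ rk K + 1 := by
  classical
  have hKT : K ≤ K ⊔ Subgroup.zpowers h := le_sup_left
  have hhT : h ∈ K ⊔ Subgroup.zpowers h :=
    (le_sup_right : Subgroup.zpowers h ≤ _) (Subgroup.mem_zpowers h)
  have hTfg : (K ⊔ Subgroup.zpowers h).FG := hfg.sup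
    ((Subgroup.fg_iff _).2 ⟨{h}, (Subgroup.zpowers_eq_closure h).symm, Set.finite_singleton h⟩)
  have hgen := SD_gen K h
  set T := K ⊔ Subgroup.zpowers h with hT
  obtain ⟨ι, b, S, hb⟩ := ff_inter A T hA
  have hrkT : rk T = #ι := rk_eq T b
  have hfin : Finite ι := by
    rw [← Cardinal.lt_aleph0_iff_finite, ← hrkT]
    exact rk_lt T hTfg
  have hKM : K.subgroupOf T ≤ A.subgroupOf T := Subgroup.comap_mono hK
  -- a letter outside `S`
  obtain ⟨i0, hi0⟩ : ∃ i, i ∉ S := by
    by_contra hcon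
    push Not at hcon
    have h1 : S = Set.univ := Set.eq_univ_of_forall hcon
    rw [h1, Set.image_univ, SD_closure] at hb
    have h2 : (⟨h, hhT⟩ : T) ∈ A.subgroupOf T := by rw [hb]; trivial
    exact hh (Subgroup.mem_subgroupOf.1 h2)
  -- it is the only one
  have huniq : ∀ i, i ∉ S → i = i0 := by
    intro i1 hi1
    by_contra hne
    let χ : ι → T →* Multiplicative ℤ := fun j => b.lift (fun i => if i = j then Multiplicative.ofAdd 1 else 1)
    have hχ : ∀ j i, χ j (b i) = if i = j then Multiplicative.ofAdd 1 else 1 := by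
      intro j i
      exact congrFun (b.lift.symm_apply_apply _) i
    have hχM : ∀ j, j ∉ S → ∀ m ∈ A.subgroupOf T, χ j m = 1 := by
      intro j hj
      have h1 : A.subgroupOf T ≤ (χ j).ker := by
        rw [hb, Subgroup.closure_le]
        rintro _ ⟨i, hi, rfl⟩
        rw [SetLike.mem_coe, MonoidHom.mem_ker, hχ, if_neg]
        rintro rfl
        exact hj hi
      exact fun m hm => h1 hm
    let hT' : T := ⟨h, hhT⟩
    let ψ : T →* Multiplicative ℤ :=
      (χ i0) ^ (Multiplicative.toAdd (χ i1 hT')) * (χ i1) ^ (- Multiplicative.toAdd (χ i0 hT'))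
    have hψ : ∀ t, Multiplicative.toAdd (ψ t) = Multiplicative.toAdd (χ i1 hT') *
        Multiplicative.toAdd (χ i0 t) - Multiplicative.toAdd (χ i0 hT') *
        Multiplicative.toAdd (χ i1 t) := by
      intro t
      simp [ψ]
      ring
    have h1 : ψ.ker = ⊤ := by
      apply hgen
      · intro k hk
        rw [MonoidHom.mem_ker]
        apply Multiplicative.toAdd.injective
        rw [hψ, hχM i0 hi0 k (hKM hk), hχM i1 hi1 k (hKM hk)]
        simp
      · intro hm
        rw [MonoidHom.mem_ker]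
        apply Multiplicative.toAdd.injective
        rw [hψ]
        change _ = (0 : ℤ)
        ring
    have h2 : ∀ t, Multiplicative.toAdd (ψ t) = 0 := by
      intro t
      have : t ∈ ψ.ker := by rw [h1]; trivial
      rw [MonoidHom.mem_ker] at this
      rw [this]; rfl
    have h3 := h2 (b i0)
    have h4 := h2 (b i1)
    rw [hψ, hχ, hχ, if_pos rfl, if_neg (Ne.symm hne)] at h3
    rw [hψ, hχ, hχ, if_pos rfl, if_neg hne] at h4
    simp at h3 h4
    have h5 : (χ i0).ker = ⊤ := by
      apply hgen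
      · intro k hk
        exact hχM i0 hi0 k (hKM hk)
      · intro hm
        exact h4
    have h6 : b i0 ∈ (χ i0).ker := by rw [h5]; trivial
    rw [MonoidHom.mem_ker, hχ, if_pos rfl] at h6
    have h7 := congrArg Multiplicative.toAdd h6
    simp at h7
  -- the automorphism
  have hmem : ∀ i ∈ S, i ≠ i0 := fun i hi h => hi0 (h ▸ hi)
  let θ : T →* T := b.lift (fun i => if i = i0 then ⟨h, hhT⟩ else b i)
  have hθ : ∀ i, θ (b i) = if i = i0 then ⟨h, hhT⟩ else b i := fun i =>
    congrFun (b.lift.symm_apply_apply _) i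
  have hθr : θ.range = ⊤ := by
    apply hgen
    · refine hKM.trans ?_
      rw [hb, Subgroup.closure_le]
      rintro _ ⟨i, hi, rfl⟩
      exact ⟨b i, by rw [hθ, if_neg (hmem i hi)]⟩
    · intro hm
      exact ⟨b i0, by rw [hθ, if_pos rfl]⟩
  have hθs : Function.Surjective θ := MonoidHom.range_eq_top.1 hθr
  have hθi : Function.Injective θ := SD_hopf b θ hθs
  let e : T ≃* T := MulEquiv.ofBijective θ ⟨hθi, hθs⟩
  let ρ' : T →* T := b.lift (fun i => if i = i0 then 1 else b i)
  have hρ' : ∀ i, ρ' (b i) = if i = i0 then 1 else b i := fun i =>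
    congrFun (b.lift.symm_apply_apply _) i
  let ρ : T →* T := ρ'.comp e.symm.toMonoidHom
  have hρh : ρ ⟨h, hhT⟩ = 1 := by
    have h1 : e.symm ⟨h, hhT⟩ = b i0 := by
      rw [MulEquiv.symm_apply_eq]
      change _ = θ (b i0)
      rw [hθ, if_pos rfl]
    change ρ' (e.symm ⟨h, hhT⟩) = 1
    rw [h1, hρ', if_pos rfl]
  have hρM : ∀ m ∈ A.subgroupOf T, ρ m = m := by
    have h1 : A.subgroupOf T ≤ MonoidHom.eqLocus ρ (MonoidHom.id T) := by
      rw [hb, Subgroup.closure_le]
      rintro _ ⟨i, hi, rfl⟩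
      have h2 : e.symm (b i) = b i := by
        rw [MulEquiv.symm_apply_eq]
        change _ = θ (b i)
        rw [hθ, if_neg (hmem i hi)]
      change ρ' (e.symm (b i)) = b i
      rw [h2, hρ', if_neg (hmem i hi)]
    exact fun m hm => h1 hm
  have hcom : (K.subgroupOf T).comap ρ = ⊤ := by
    apply hgen
    · intro k hk
      rw [Subgroup.mem_comap, hρM k (hKM hk)]
      exact hk
    · intro hm
      rw [Subgroup.mem_comap, hρh]
      exact Subgroup.one_mem _
  have hMK : A.subgroupOf T ≤ K.subgroupOf T := by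
    intro m hm
    have h1 : m ∈ (K.subgroupOf T).comap ρ := by rw [hcom]; trivial
    rw [Subgroup.mem_comap, hρM m hm] at h1
    exact h1
  have hTA : T ⊓ A = K := by
    apply le_antisymm
    · rintro x ⟨hx1, hx2⟩
      have h1 : (⟨x, hx1⟩ : T) ∈ A.subgroupOf T := Subgroup.mem_subgroupOf.2 hx2
      exact Subgroup.mem_subgroupOf.1 (hMK h1)
    · exact le_inf hKT hK
  refine ⟨hTA, ?_⟩
  have hK2 : K = Subgroup.closure ((fun i => (b i : G)) '' S) := by
    have h1 : (fun i => (b i : G)) '' S = T.subtype '' (b '' S) := by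
      rw [← Set.image_comp]; rfl
    rw [h1, ← MonoidHom.map_closure, ← hb]
    rw [Subgroup.subgroupOf_map_subtype, inf_comm]
    exact hTA.symm
  rw [hrkT, hK2, rk_closure T b S]
  calc #ι = #(Set.univ : Set ι) := Cardinal.mk_univ.symm
    _ ≤ #((S ∪ {i0} : Set ι)) := by
        apply Cardinal.mk_le_mk_of_subset
        intro i _
        by_cases hi : i ∈ S
        · exact Or.inl hi
        · exact Or.inr (huniq i hi)
    _ ≤ #S + #({i0} : Set ι) := Cardinal.mk_union_le _ _
    _ = #S + 1 := by rw [Cardinal.mk_singleton]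

theorem SD_Fs_mono (n : ℕ) {i j : ℕ} (h : i ≤ j) : Fs n i ≤ Fs n j := by
  apply Subgroup.closure_mono
  apply Set.image_mono
  intro x hx
  exact lt_of_lt_of_le hx h

theorem ef_of_basis {n : ℕ} (b : Fin n → FreeGroup (Fin n)) (h1 : ∀ i, b i ∈ Fs n (i.val + 1))
    (h2 : ∀ i, b i = 1 ∨ b i ∉ Fs n i.val) : EF (Subgroup.closure (Set.range b)) := by
  let K : ℕ → Subgroup (FreeGroup (Fin n)) := fun i => Subgroup.closure (b '' {j | j.val < i})
  have hKfg : ∀ i, (K i).FG := by
    intro i
    exact (Subgroup.fg_iff _).2 ⟨_, rfl, (Set.toFinite _)⟩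
  have hKF : ∀ i, K i ≤ Fs n i := by
    intro i
    rw [Subgroup.closure_le]
    rintro _ ⟨j, hj, rfl⟩
    exact SD_Fs_mono n (Nat.succ_le_of_lt hj) (h1 j)
  have hKs : ∀ i (hi : i < n), K (i + 1) = K i ⊔ Subgroup.zpowers (b ⟨i, hi⟩) := by
    intro i hi
    have h3 : (b '' {j : Fin n | j.val < i + 1}) = (b '' {j | j.val < i}) ∪ {b ⟨i, hi⟩} := by
      ext x
      simp only [Set.mem_image, Set.mem_union, Set.mem_singleton_iff, Set.mem_ofPred_eq]
      constructor
      · rintro ⟨j, hj, rfl⟩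
        rcases Nat.lt_succ_iff_lt_or_eq.1 hj with h | h
        · exact Or.inl ⟨j, h, rfl⟩
        · exact Or.inr (congrArg b (Fin.ext h))
      · rintro (⟨j, hj, rfl⟩ | rfl)
        · exact ⟨j, Nat.lt_succ_of_lt hj, rfl⟩
        · exact ⟨⟨i, hi⟩, Nat.lt_succ_self i, rfl⟩
    change Subgroup.closure _ = Subgroup.closure _ ⊔ _
    rw [h3, Subgroup.closure_union, Subgroup.zpowers_eq_closure]
  have step : ∀ i (hi : i < n), K (i + 1) ⊓ Fs n i = K i ∧ rk (K (i + 1)) ≤ rk (K i) + 1 := by
    intro i hi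
    rcases h2 ⟨i, hi⟩ with h3 | h3
    · have h4 : K (i + 1) = K i := by
        rw [hKs i hi, h3, Subgroup.zpowers_one_eq_bot, sup_bot_eq]
      rw [h4]
      exact ⟨inf_eq_left.2 (hKF i), self_le_add_right _ _⟩
    · rw [hKs i hi]
      exact ff_adj (Fs n i) (K i) (ff_Fs n i) (hKF i) (hKfg i) _ h3
  have hn : Subgroup.closure (Set.range b) = K n := by
    change _ = Subgroup.closure _
    congr 1
    ext x
    constructor
    · rintro ⟨j, rfl⟩; exact ⟨j, j.2, rfl⟩
    · rintro ⟨j, _, rfl⟩; exact ⟨j, rfl⟩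
  have hall : ∀ k i, i + k = n → Subgroup.closure (Set.range b) ⊓ Fs n i = K i := by
    intro k
    induction k with
    | zero =>
      intro i hi
      have : i = n := by omega
      subst this
      rw [hn]; exact inf_eq_left.2 (hKF _)
    | succ k ih =>
      intro i hi
      have h3 := ih (i + 1) (by omega)
      rw [← (step i (by omega)).1, ← h3, inf_assoc,
        inf_eq_right.2 (SD_Fs_mono n (Nat.le_succ i))]
  intro i hi
  rw [hall (n - i) i (by omega), hall (n - (i + 1)) (i + 1) (by omega)]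
  exact (step i hi).2

end Pool.Agent.helper22.EC
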