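import Pool.Agent.helper71.EC.DC
import Pool.Agent.helper34.EC.CO
import Pool.Agent.helper51.EC.SC3

/-!
# MP_00de39_al (project EC), module SP: splitting a core vertex
-/

set_option autoImplicit false
set_option linter.unusedSectionVars false

namespace Pool.Agent.helper22.EC

open FreeGroup

section SP

variable {α : Type} [DecidableEq α]

/-! ## The cocycle -/

open Classical in
/-- the direction `y` at the vertex `c` is on the side `P` of the split vertex `v` -/
noncomputable def SP_d {H : Subgroup (FreeGroup α)} (v : FreeGroup α ⧸ H) (P : Set (α × Bool))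
    (c : FreeGroup α ⧸ H) (y : α × Bool) : Bool := decide (c = v ∧ y ∈ P)

/-- the new letter to the power `0` or `1` -/
def SP_t {α : Type} (b : Bool) : FreeGroup (Option α) := if b then of none else 1

/-- old letters -/
def SP_s {α : Type} (y : α × Bool) : Option α × Bool := (some y.1, y.2)

/-- The element of the bigger free group read along the path `w` starting at `c`. -/
noncomputable def SP_J {H : Subgroup (FreeGroup α)} (v : FreeGroup α ⧸ H) (P : Set (α × Bool)) :
    (FreeGroup α ⧸ H) → List (α × Bool) → FreeGroup (Option α)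
  | _, [] => 1
  | c, y :: w => SP_t (SP_d v P c y) * FreeGroup.mk [SP_s y] *
      (SP_t (SP_d v P ((lt y)⁻¹ • c) (nb y)))⁻¹ * SP_J v P ((lt y)⁻¹ • c) w

/-- no crossing along the path `w` starting at `c` -/
def SP_NC {H : Subgroup (FreeGroup α)} (v : FreeGroup α ⧸ H) (P : Set (α × Bool)) :
    (FreeGroup α ⧸ H) → Bool → List (α × Bool) → Prop
  | _, e, [] => e = false
  | c, e, y :: w => e = SP_d v P c y ∧
      SP_NC v P ((lt y)⁻¹ • c) (SP_d v P ((lt y)⁻¹ • c) (nb y)) w

/-- the reduced word of the path -/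
noncomputable def SP_JL {H : Subgroup (FreeGroup α)} (v : FreeGroup α ⧸ H) (P : Set (α × Bool)) :
    (FreeGroup α ⧸ H) → Bool → List (α × Bool) → List (Option α × Bool)
  | _, e, [] => if e then [(none, false)] else []
  | c, e, y :: w => (if e = SP_d v P c y then [] else [(none, !e)]) ++
      SP_s y :: SP_JL v P ((lt y)⁻¹ • c) (SP_d v P ((lt y)⁻¹ • c) (nb y)) w

theorem SP_nb_nb (y : α × Bool) : nb (nb y) = y := by simp [nb]

theorem SP_lt_nb (y : α × Bool) : lt (nb y) = (lt y)⁻¹ := by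
  simp [lt, nb, FreeGroup.inv_mk, FreeGroup.invRev]

theorem SP_mk_cons (y : α × Bool) (w : List (α × Bool)) :
    (FreeGroup.mk (y :: w) : FreeGroup α) = lt y * FreeGroup.mk w := by
  rw [lt, FreeGroup.mul_mk]; rfl

variable {H : Subgroup (FreeGroup α)} (v : FreeGroup α ⧸ H) (P : Set (α × Bool))

theorem SP_J_append (p w : List (α × Bool)) : ∀ c : FreeGroup α ⧸ H,
    SP_J v P c (p ++ w) = SP_J v P c p * SP_J v P ((FreeGroup.mk p)⁻¹ • c) w := by
  induction p with
  | nil => intro c; simp [SP_J, ← FreeGroup.one_eq_mk]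
  | cons y p ih =>
    intro c
    rw [List.cons_append, SP_J, SP_J, ih, SP_mk_cons y p, mul_inv_rev, mul_smul]
    simp only [mul_assoc]

theorem SP_J_step {L1 L2 : List (α × Bool)} (h : FreeGroup.Red.Step L1 L2) (c : FreeGroup α ⧸ H) :
    SP_J v P c L1 = SP_J v P c L2 := by
  cases h with
  | @not L1 L2 x b =>
    rw [SP_J_append, SP_J_append]
    congr 1
    generalize (FreeGroup.mk L1)⁻¹ • c = c'
    have e1 : (x, !b) = nb (x, b) := rfl
    rw [SP_J, SP_J, e1, SP_lt_nb, SP_nb_nb]
    have e2 : ((lt (x, b))⁻¹)⁻¹ • (lt (x, b))⁻¹ • c' = c' := by simp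
    rw [e2]
    have e3 : (FreeGroup.mk [SP_s (nb (x, b))] : FreeGroup (Option α)) =
        (FreeGroup.mk [SP_s (x, b)])⁻¹ := by
      simp [SP_s, nb, FreeGroup.inv_mk, FreeGroup.invRev]
    rw [e3]
    group

theorem SP_J_red {L1 L2 : List (α × Bool)} (h : FreeGroup.Red L1 L2) (c : FreeGroup α ⧸ H) :
    SP_J v P c L1 = SP_J v P c L2 := by
  induction h with
  | refl => rfl
  | tail _ h ih => exact ih.trans (SP_J_step v P h c)

theorem SP_J_mul (g h : FreeGroup α) (c : FreeGroup α ⧸ H) :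
    SP_J v P c (g * h).toWord = SP_J v P c g.toWord * SP_J v P (g⁻¹ • c) h.toWord := by
  rw [FreeGroup.toWord_mul, ← SP_J_red v P FreeGroup.reduce.red c, SP_J_append,
    FreeGroup.mk_toWord]

theorem SP_J_proj (w : List (α × Bool)) : ∀ c : FreeGroup α ⧸ H,
    FreeGroup.lift (fun o : Option α => o.elim 1 FreeGroup.of) (SP_J v P c w) =
      FreeGroup.mk w := by
  have ht : ∀ b : Bool, FreeGroup.lift (fun o : Option α => o.elim 1 FreeGroup.of) (SP_t b) =
      (1 : FreeGroup α) := by
    intro b; cases b <;> simp [SP_t]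
  have hs : ∀ y : α × Bool, FreeGroup.lift (fun o : Option α => o.elim 1 FreeGroup.of)
      (FreeGroup.mk [SP_s y]) = lt y := by
    rintro ⟨a, b⟩; cases b <;> simp [SP_s, lt, FreeGroup.of, FreeGroup.inv_mk, FreeGroup.invRev]
  induction w with
  | nil => intro c; simp [SP_J, ← FreeGroup.one_eq_mk]
  | cons y w ih =>
    intro c
    rw [SP_J, _root_.map_mul, _root_.map_mul, _root_.map_mul, _root_.map_inv, ht, ht, hs, ih,
      SP_mk_cons y w]
    simp

theorem SP_JL_mk (w : List (α × Bool)) : ∀ (c : FreeGroup α ⧸ H) (e : Bool),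
    FreeGroup.mk (SP_JL v P c e w) = (SP_t e)⁻¹ * SP_J v P c w := by
  induction w with
  | nil =>
    intro c e
    cases e <;> simp [SP_JL, SP_J, SP_t, FreeGroup.of, FreeGroup.inv_mk, FreeGroup.invRev,
      ← FreeGroup.one_eq_mk]
  | cons y w ih =>
    intro c e
    have h1 : (FreeGroup.mk (SP_JL v P c e (y :: w)) : FreeGroup (Option α)) =
        FreeGroup.mk (if e = SP_d v P c y then [] else [(none, !e)]) *
          (FreeGroup.mk [SP_s y] * FreeGroup.mk
            (SP_JL v P ((lt y)⁻¹ • c) (SP_d v P ((lt y)⁻¹ • c) (nb y)) w)) := by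
      rw [SP_JL, FreeGroup.mul_mk, FreeGroup.mul_mk]; rfl
    have h2 : (FreeGroup.mk (if e = SP_d v P c y then [] else [(none, !e)]) :
        FreeGroup (Option α)) = (SP_t e)⁻¹ * SP_t (SP_d v P c y) := by
      generalize SP_d v P c y = d
      by_cases hd : e = d
      · subst hd
        simp [← FreeGroup.one_eq_mk]
      · rw [if_neg hd]
        cases e <;> cases d <;> simp at hd <;>
          simp [SP_t, FreeGroup.of, FreeGroup.inv_mk, FreeGroup.invRev]
    rw [h1, h2, ih, SP_J]
    simp only [mul_assoc]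

theorem SP_JL_red (w : List (α × Bool)) : ∀ (c : FreeGroup α ⧸ H) (e : Bool) (y : α × Bool),
    FreeGroup.IsReduced (y :: w) → FreeGroup.IsReduced (SP_s y :: SP_JL v P c e w) := by
  induction w with
  | nil =>
    intro c e y _
    cases e <;> simp [SP_JL, SP_s, FreeGroup.isReduced_cons_cons]
  | cons z w ih =>
    intro c e y h
    rw [FreeGroup.isReduced_cons_cons] at h
    have h3 := ih ((lt z)⁻¹ • c) (SP_d v P ((lt z)⁻¹ • c) (nb z)) z h.2
    rw [SP_JL]
    split_ifs with h4
    · rw [List.nil_append, FreeGroup.isReduced_cons_cons]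
      exact ⟨fun h5 => h.1 (by simpa [SP_s] using h5), h3⟩
    · rw [List.singleton_append, FreeGroup.isReduced_cons_cons, FreeGroup.isReduced_cons_cons]
      exact ⟨fun h5 => by simp [SP_s] at h5, fun h5 => by simp [SP_s] at h5, h3⟩

theorem SP_JL_red' (w : List (α × Bool)) (c : FreeGroup α ⧸ H) (e : Bool)
    (h : FreeGroup.IsReduced w) : FreeGroup.IsReduced (SP_JL v P c e w) := by
  cases w with
  | nil => cases e <;> simp [SP_JL]
  | cons z w =>
    have h3 := SP_JL_red v P w ((lt z)⁻¹ • c) (SP_d v P ((lt z)⁻¹ • c) (nb z)) z h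
    rw [SP_JL]
    split_ifs with h4
    · rw [List.nil_append]; exact h3
    · rw [List.singleton_append, FreeGroup.isReduced_cons_cons]
      exact ⟨fun h5 => by simp [SP_s] at h5, h3⟩

theorem SP_NC_of_JL (w : List (α × Bool)) : ∀ (c : FreeGroup α ⧸ H) (e : Bool),
    (∀ l ∈ SP_JL v P c e w, l.1 ≠ none) → SP_NC v P c e w := by
  induction w with
  | nil =>
    intro c e h
    cases e
    · rfl
    · exact absurd rfl (h (none, false) (by simp [SP_JL]))
  | cons y w ih =>
    intro c e h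
    refine ⟨?_, ih _ _ fun l hl => h l ?_⟩
    · by_contra h1
      exact absurd rfl (h (none, !e) (by simp [SP_JL, h1]))
    · rw [SP_JL]
      exact List.mem_append_right _ (List.mem_cons_of_mem _ hl)

/-- the value of the path when nothing is crossed -/
theorem SP_val (y : α × Bool) (q p : List (α × Bool)) : ∀ (c : FreeGroup α ⧸ H) (e : Bool),
    SP_NC v P c e (p ++ y :: q) →
      (SP_t e)⁻¹ * SP_J v P c p =
        FreeGroup.map some (FreeGroup.mk p) * (SP_t (SP_d v P ((FreeGroup.mk p)⁻¹ • c) y))⁻¹ := by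
  induction p with
  | nil =>
    intro c e h
    have h1 : e = SP_d v P c y := h.1
    rw [SP_J, ← FreeGroup.one_eq_mk, _root_.map_one, inv_one, one_smul, mul_one, one_mul, h1]
  | cons z p ih =>
    intro c e h
    have h1 : e = SP_d v P c z := h.1
    have h2 := ih _ _ h.2
    have h3 : (FreeGroup.mk [SP_s z] : FreeGroup (Option α)) =
        FreeGroup.map some (lt z) := by
      simp [lt, SP_s]
    rw [SP_J, SP_mk_cons z p, _root_.map_mul, mul_inv_rev, mul_smul, mul_assoc (FreeGroup.map some (lt z)),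
      ← h2, ← h3, h1]
    group

theorem SP_val' (w : List (α × Bool)) : ∀ (c : FreeGroup α ⧸ H) (e : Bool),
    SP_NC v P c e w → (SP_t e)⁻¹ * SP_J v P c w = FreeGroup.map some (FreeGroup.mk w) := by
  induction w with
  | nil =>
    intro c e h
    have h1 : e = false := h
    rw [SP_J, ← FreeGroup.one_eq_mk, _root_.map_one, h1]
    simp [SP_t]
  | cons z p ih =>
    intro c e h
    have h1 : e = SP_d v P c z := h.1
    have h2 := ih _ _ h.2
    have h3 : (FreeGroup.mk [SP_s z] : FreeGroup (Option α)) =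
        FreeGroup.map some (lt z) := by
      simp [lt, SP_s]
    rw [SP_J, SP_mk_cons z p, _root_.map_mul, ← h2, ← h3, h1]
    group

theorem SP_pend (y z : α × Bool) (q p : List (α × Bool)) : ∀ (c : FreeGroup α ⧸ H) (e : Bool),
    SP_NC v P c e (p ++ z :: y :: q) →
      SP_d v P ((FreeGroup.mk (p ++ [z]))⁻¹ • c) (nb z) =
        SP_d v P ((FreeGroup.mk (p ++ [z]))⁻¹ • c) y := by
  induction p with
  | nil =>
    intro c e h
    exact h.2.1
  | cons w p ih =>
    intro c e h
    have h2 := ih _ _ h.2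
    rw [List.cons_append, SP_mk_cons, mul_inv_rev, mul_smul]
    exact h2

/-! ## The free factor -/

/-- the base vertex -/
def SP_b (H : Subgroup (FreeGroup α)) : FreeGroup α ⧸ H := ((1 : FreeGroup α) : FreeGroup α ⧸ H)

theorem SP_smul_b (g : FreeGroup α) : g⁻¹ • SP_b H = ((g⁻¹ : FreeGroup α) : FreeGroup α ⧸ H) := by
  rw [SP_b, MulAction.Quotient.smul_coe]; simp

theorem SP_smul_b_of_mem {g : FreeGroup α} (hg : g ∈ H) : g⁻¹ • SP_b H = SP_b H := by
  rw [SP_smul_b, SP_b, QuotientGroup.eq]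
  simpa using hg

/-- the embedding of `H` into the bigger free group -/
noncomputable def SP_j : H →* FreeGroup (Option α) where
  toFun h := SP_J v P (SP_b H) (h : FreeGroup α).toWord
  map_one' := by simp [SP_J]
  map_mul' g h := by
    rw [Subgroup.coe_mul, SP_J_mul, SP_smul_b_of_mem g.2]

theorem SP_j_apply (h : H) : SP_j v P h = SP_J v P (SP_b H) (h : FreeGroup α).toWord := rfl

theorem SP_j_inj : Function.Injective (SP_j v P) := by
  intro g h hgh
  have h1 := congrArg (FreeGroup.lift (fun o : Option α => o.elim 1 FreeGroup.of)) hgh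
  rw [SP_j_apply, SP_j_apply, SP_J_proj, SP_J_proj, FreeGroup.mk_toWord, FreeGroup.mk_toWord] at h1
  exact Subtype.ext h1

/-- the old letters in the bigger free group -/
def SP_F (α : Type) : Subgroup (FreeGroup (Option α)) := (FreeGroup.map some).range

omit [DecidableEq α] in
theorem SP_F_ff : IsFF (SP_F α) := by
  refine ⟨Option α, FreeGroupBasis.ofFreeGroup (Option α), Set.range some, ?_⟩
  have h1 : ((FreeGroupBasis.ofFreeGroup (Option α)) '' Set.range some :
      Set (FreeGroup (Option α))) = (FreeGroup.map some) '' (Set.range FreeGroup.of) := by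
    rw [← Set.range_comp, ← Set.range_comp]
    congr 1
  rw [SP_F, h1, ← MonoidHom.map_closure, FreeGroup.closure_range_of, MonoidHom.range_eq_map]

theorem SP_mem_F {q : FreeGroup (Option α)} (hq : q ∈ SP_F α) : ∀ l ∈ q.toWord, l.1 ≠ none := by
  obtain ⟨r, rfl⟩ := hq
  have h1 : (FreeGroup.map some r).toWord = r.toWord.map fun l => ((some l.1 : Option α), l.2) := by
    conv_lhs => rw [← FreeGroup.mk_toWord (x := r)]
    rw [FreeGroup.map.mk, FreeGroup.toWord_mk]
    apply FreeGroup.IsReduced.reduce_eq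
    have h2 : FreeGroup.IsReduced r.toWord := FreeGroup.isReduced_toWord
    unfold FreeGroup.IsReduced at h2 ⊢
    rw [List.isChain_map]
    refine h2.imp fun a b hab => ?_
    simpa using hab
  intro l hl
  rw [h1, List.mem_map] at hl
  obtain ⟨a, _, rfl⟩ := hl
  simp

theorem SP_mem_iff (g : FreeGroup α) :
    SP_J v P (SP_b H) g.toWord ∈ SP_F α ↔ SP_NC v P (SP_b H) false g.toWord := by
  constructor
  · intro h
    apply SP_NC_of_JL
    have h1 := SP_JL_mk v P g.toWord (SP_b H) false
    have h2 : (SP_J v P (SP_b H) g.toWord).toWord = SP_JL v P (SP_b H) false g.toWord := by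
      have h3 : SP_J v P (SP_b H) g.toWord = FreeGroup.mk (SP_JL v P (SP_b H) false g.toWord) := by
        rw [h1]; simp [SP_t]
      rw [h3, FreeGroup.toWord_mk]
      exact (SP_JL_red' v P _ _ _ FreeGroup.isReduced_toWord).reduce_eq
    rw [← h2]
    exact SP_mem_F h
  · intro h
    have h1 := SP_val' v P g.toWord _ _ h
    refine ⟨FreeGroup.mk g.toWord, ?_⟩
    rw [← h1]; simp [SP_t]

/-! ## Core vertices of the smaller subgroups -/

/-- directions of a subgroup whose elements do not cross -/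
theorem SP_dir (K : Subgroup (FreeGroup α)) (hK : ∀ k ∈ K, SP_NC v P (SP_b H) false k.toWord)
    (g : FreeGroup α) (y z : α × Bool) (hy : y ∈ D (cj K g)) (hz : z ∈ D (cj K g)) :
    SP_d v P (g⁻¹ • SP_b H) y = SP_d v P (g⁻¹ • SP_b H) z := by
  have main : ∃ e : Bool, ∀ y ∈ D (cj K g), SP_d v P (g⁻¹ • SP_b H) y = e := by
    rcases List.eq_nil_or_concat g.toWord with h0 | ⟨p, w, h0⟩
    · refine ⟨false, fun y hy => ?_⟩
      obtain ⟨k, hk, q, hq⟩ := hull_edge K g y hy (by rw [h0]; simp)
      have h1 := hK k hk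
      rw [← hq, h0] at h1
      have h2 : g = 1 := by rw [← FreeGroup.toWord_eq_nil_iff]; exact h0
      rw [h2, inv_one, one_smul]
      exact h1.1.symm
    · rw [List.concat_eq_append] at h0
      refine ⟨SP_d v P (g⁻¹ • SP_b H) (nb w), fun y hy => ?_⟩
      by_cases hyw : y = nb w
      · rw [hyw]
      · have hr : FreeGroup.IsReduced (g.toWord ++ [y]) := by
          have h3 : FreeGroup.IsReduced (p ++ [w]) := by
            rw [← h0]; exact FreeGroup.isReduced_toWord
          have h4 : FreeGroup.IsReduced ([w] ++ [y]) := by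
            rw [List.singleton_append, FreeGroup.isReduced_cons_cons]
            refine ⟨fun h5 => ?_, by simp⟩
            by_contra h6
            apply hyw
            have h7 : y.2 = !w.2 := by
              cases hw : w.2 <;> cases hy2 : y.2 <;> simp_all
            exact Prod.ext h5.symm h7
          rw [h0]
          exact FreeGroup.IsReduced.append_overlap h3 h4 (by simp)
        obtain ⟨k, hk, q, hq⟩ := hull_edge K g y hy hr
        have h1 := hK k hk
        have h8 : k.toWord = p ++ w :: y :: q := by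
          rw [← hq, h0]; simp
        rw [h8] at h1
        have h9 := SP_pend v P y w q p _ _ h1
        rw [← h0, FreeGroup.mk_toWord] at h9
        exact h9.symm
  obtain ⟨e, he⟩ := main
  rw [he y hy, he z hz]

/-- the value of the path to a core vertex -/
theorem SP_pos (K : Subgroup (FreeGroup α)) (hK : ∀ k ∈ K, SP_NC v P (SP_b H) false k.toWord)
    (g : FreeGroup α) (y : α × Bool) (hn : (D (cj K g)).Nontrivial) (hy : y ∈ D (cj K g)) :
    SP_J v P (SP_b H) g.toWord =
      FreeGroup.map some g * (SP_t (SP_d v P (g⁻¹ • SP_b H) y))⁻¹ := by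
  have h1 : ∃ z ∈ D (cj K g), FreeGroup.IsReduced (g.toWord ++ [z]) := by
    rcases List.eq_nil_or_concat g.toWord with h0 | ⟨p, w, h0⟩
    · exact ⟨y, hy, by rw [h0]; simp⟩
    · rw [List.concat_eq_append] at h0
      obtain ⟨z, hz, hzw⟩ : ∃ z ∈ D (cj K g), z ≠ nb w := hn.exists_ne (nb w)
      refine ⟨z, hz, ?_⟩
      have h3 : FreeGroup.IsReduced (p ++ [w]) := by
        rw [← h0]; exact FreeGroup.isReduced_toWord
      have h4 : FreeGroup.IsReduced ([w] ++ [z]) := by
        rw [List.singleton_append, FreeGroup.isReduced_cons_cons]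
        refine ⟨fun h5 => ?_, by simp⟩
        by_contra h6
        apply hzw
        have h7 : z.2 = !w.2 := by
          cases hw : w.2 <;> cases hy2 : z.2 <;> simp_all
        exact Prod.ext h5.symm h7
      rw [h0]
      exact FreeGroup.IsReduced.append_overlap h3 h4 (by simp)
  obtain ⟨z, hz, hr⟩ := h1
  obtain ⟨k, hk, q, hq⟩ := hull_edge K g z hz hr
  have h2 := hK k hk
  rw [← hq, List.append_assoc, List.singleton_append] at h2
  have h3 := SP_val v P z q g.toWord _ _ h2
  rw [FreeGroup.mk_toWord] at h3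
  rw [SP_dir v P K hK g y z hy hz, ← h3]
  simp [SP_t]

theorem SP_dir_mono {L H : Subgroup (FreeGroup α)} (h : L ≤ H) (g : FreeGroup α) :
    D (cj L g) ⊆ D (cj H g) := D_mono (Subgroup.comap_mono h)

/-- elements of `L` do not cross -/
theorem SP_L (L : Subgroup (FreeGroup α)) (hLH : L ≤ H) (hn : (D L).Nontrivial)
    (hbase : ∀ y ∈ D L, SP_d v P (SP_b H) y = false)
    (hns : ∀ (g : FreeGroup α) (y z : α × Bool), g⁻¹ • SP_b H = v → y ∈ D (cj L g) →
      z ∈ D (cj L g) → y ∈ P → z ∈ P)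
    (l : FreeGroup α) (hl : l ∈ L) : SP_NC v P (SP_b H) false l.toWord := by
  have hd : ∀ (g : FreeGroup α) (y z : α × Bool), y ∈ D (cj L g) → z ∈ D (cj L g) →
      SP_d v P (g⁻¹ • SP_b H) y = SP_d v P (g⁻¹ • SP_b H) z := by
    intro g y z hy hz
    unfold SP_d
    rw [decide_eq_decide]
    constructor
    · rintro ⟨h1, h2⟩; exact ⟨h1, hns g y z h1 hy hz h2⟩
    · rintro ⟨h1, h2⟩; exact ⟨h1, hns g z y h1 hz hy h2⟩
  have key : ∀ (q p : List (α × Bool)) (e : Bool), l.toWord = p ++ q →
      ((p = [] ∧ e = false) ∨ ∃ p' z, p = p' ++ [z] ∧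
        e = SP_d v P ((FreeGroup.mk p)⁻¹ • SP_b H) (nb z)) →
      SP_NC v P ((FreeGroup.mk p)⁻¹ • SP_b H) e q := by
    intro q
    induction q with
    | nil =>
      intro p e h1 h2
      rcases h2 with ⟨_, h2⟩ | ⟨p', z, h2, h3⟩
      · exact h2
      · change e = false
        rw [List.append_nil] at h1
        have h4 := hull_back L hn l hl p' [] z (by rw [h1, h2])
        rw [← h2, ← h1, FreeGroup.mk_toWord] at h4
        have h5 : cj L l = L := by
          ext x
          have h6 : x ∈ cj L l ↔ l * x * l⁻¹ ∈ L := Iff.rfl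
          rw [h6, L.mul_mem_cancel_right (L.inv_mem hl), L.mul_mem_cancel_left hl]
        rw [h5] at h4
        rw [h3, ← h1, FreeGroup.mk_toWord, SP_smul_b_of_mem (hLH hl)]
        exact hbase _ h4
    | cons y q ih =>
      intro p e h1 h2
      have hy := (hull_next L hn l hl p q y h1).1
      refine ⟨?_, ?_⟩
      · rcases h2 with ⟨h2, h3⟩ | ⟨p', z, h2, h3⟩
        · subst h2
          rw [← FreeGroup.one_eq_mk, cj_one] at hy
          rw [← FreeGroup.one_eq_mk, inv_one, one_smul, h3]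
          exact (hbase _ hy).symm
        · have h4 := hull_back L hn l hl p' (y :: q) z (by rw [h1, h2]; simp)
          rw [← h2] at h4
          rw [h3]
          exact hd _ _ _ h4 hy
      · have h5 : (lt y)⁻¹ • (FreeGroup.mk p)⁻¹ • SP_b H =
            (FreeGroup.mk (p ++ [y]))⁻¹ • SP_b H := by
          rw [← FreeGroup.mul_mk, mul_inv_rev, mul_smul]; rfl
        rw [h5]
        exact ih (p ++ [y]) _ (by rw [h1]; simp) (Or.inr ⟨p, y, rfl, rfl⟩)
  have h9 := key l.toWord [] false (by simp) (Or.inl ⟨rfl, rfl⟩)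
  rwa [← FreeGroup.one_eq_mk, inv_one, one_smul] at h9

/-- the smaller subgroup -/
noncomputable def SP_H' : Subgroup (FreeGroup α) := ((SP_F α).comap (SP_j v P)).map H.subtype

theorem SP_mem_H' (g : FreeGroup α) :
    g ∈ SP_H' v P ↔ g ∈ H ∧ SP_NC v P (SP_b H) false g.toWord := by
  rw [← SP_mem_iff, SP_H', Subgroup.mem_map]
  constructor
  · rintro ⟨h, hh, rfl⟩
    exact ⟨h.2, hh⟩
  · rintro ⟨h1, h2⟩
    exact ⟨⟨g, h1⟩, h2, rfl⟩

theorem SP_ff : IsFF ((SP_H' v P).subgroupOf H) := by
  obtain ⟨ι, b, S, hb⟩ := ff_inter (SP_F α) (SP_j v P).range SP_F_ff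
  let i : H ≃* (SP_j v P).range := MonoidHom.ofInjective (SP_j_inj v P)
  refine ⟨ι, b.map i.symm, S, ?_⟩
  have h1 : ((b.map i.symm) '' S : Set H) = i.symm '' (b '' S) := by
    rw [← Set.image_comp]
    rfl
  have h2 : (SP_H' v P).subgroupOf H = (SP_F α).comap (SP_j v P) := by
    rw [SP_H', Subgroup.subgroupOf, Subgroup.comap_map_eq_self_of_injective H.subtype_injective]
  have h3 : Subgroup.closure (i.symm '' (b '' S)) =
      (Subgroup.closure (b '' S)).map i.symm.toMonoidHom := by
    rw [MonoidHom.map_closure]; rfl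
  rw [h1, h2, h3, ← hb]
  ext x
  rw [Subgroup.mem_map]
  constructor
  · intro hx
    refine ⟨i x, ?_, by simp⟩
    rw [Subgroup.mem_subgroupOf]
    exact hx
  · rintro ⟨y, hy, rfl⟩
    rw [Subgroup.mem_subgroupOf] at hy
    have h4 : SP_j v P (i.symm y) = (y : FreeGroup (Option α)) := by
      have h5 : (i (i.symm y) : FreeGroup (Option α)) = y := by simp
      exact h5
    rw [Subgroup.mem_comap]
    change SP_j v P (i.symm y) ∈ SP_F α
    rw [h4]; exact hy

theorem SP_EE [Fintype α] (hH : H.FG) (hle : SP_H' v P ≤ H) : EE (SP_H' v P) ≤ EE H := by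
  unfold EE
  refine Finset.sum_le_sum fun a _ => ?_
  have hK : ∀ k ∈ SP_H' v P, SP_NC v P (SP_b H) false k.toWord :=
    fun k hk => ((SP_mem_H' v P k).1 hk).2
  refine Set.ncard_le_ncard_of_injOn (Subgroup.quotientMapOfLE hle) ?_ ?_ (edg_finite H hH _)
  · intro u hu
    induction u using QuotientGroup.induction_on with
    | H g =>
      rw [Subgroup.quotientMapOfLE_apply_mk]
      change (a, true) ∈ Dv _ _ ∧ (Dv _ _).Nontrivial at hu
      change (a, true) ∈ Dv _ _ ∧ (Dv _ _).Nontrivial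
      rw [Dv_coe] at hu ⊢
      exact ⟨SP_dir_mono hle _ hu.1, hu.2.mono (SP_dir_mono hle _)⟩
  · intro u1 hu1 u2 hu2 he
    induction u1 using QuotientGroup.induction_on with
    | H g1 =>
    induction u2 using QuotientGroup.induction_on with
    | H g2 =>
      rw [Subgroup.quotientMapOfLE_apply_mk, Subgroup.quotientMapOfLE_apply_mk] at he
      change (a, true) ∈ Dv _ _ ∧ (Dv _ _).Nontrivial at hu1 hu2
      rw [Dv_coe] at hu1 hu2
      have e1 := SP_pos v P _ hK g1⁻¹ (a, true) hu1.2 hu1.1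
      have e2 := SP_pos v P _ hK g2⁻¹ (a, true) hu2.2 hu2.1
      have hb1 : (g1⁻¹)⁻¹ • SP_b H = (g1 : FreeGroup α ⧸ H) := by
        rw [SP_smul_b, inv_inv]
      have hb2 : (g2⁻¹)⁻¹ • SP_b H = (g2 : FreeGroup α ⧸ H) := by
        rw [SP_smul_b, inv_inv]
      rw [hb1] at e1
      rw [hb2, ← he] at e2
      have hm : g1⁻¹ * g2 ∈ H := QuotientGroup.eq.1 he
      rw [QuotientGroup.eq, SP_mem_H', ← SP_mem_iff]
      refine ⟨hm, ?_⟩
      have e3 := SP_J_mul v P (g1⁻¹ * g2) g2⁻¹ (SP_b H)
      rw [SP_smul_b_of_mem hm, mul_inv_cancel_right, e1, e2] at e3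
      have e4 : SP_J v P (SP_b H) (g1⁻¹ * g2).toWord = FreeGroup.map some (g1⁻¹ * g2) := by
        rw [_root_.map_mul, ← mul_right_inj (FreeGroup.map some g1⁻¹)⁻¹]
        have e5 := congrArg (fun x => (FreeGroup.map some g1⁻¹)⁻¹ * x *
          (SP_t (SP_d v P (g1 : FreeGroup α ⧸ H) (a, true))) * FreeGroup.map some g2) e3
        simp only [_root_.map_inv] at e5 ⊢
        calc _ = (((FreeGroup.map some) g1)⁻¹)⁻¹ * SP_J v P (SP_b H) (g1⁻¹ * g2).toWord := rfl
          _ = (FreeGroup.map some) g2 := by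
            have e6 := e5.symm
            group at e6 ⊢
            exact e6
          _ = _ := by group
      rw [e4]
      exact ⟨_, rfl⟩

theorem split [Fintype α] (H L : Subgroup (FreeGroup α)) (hH : H.FG) (hLH : L ≤ H)
    (hn : (D L).Nontrivial)
    (v : FreeGroup α ⧸ H) (P Q : Set (α × Bool)) (hPQ : P ∪ Q = Dv H v) (hd : Disjoint P Q)
    (hP : P.Nonempty) (hQ : Q.Nonempty)
    (hns : ∀ u : FreeGroup α ⧸ L, Subgroup.quotientMapOfLE hLH u = v →
      ¬ ((Dv L u ∩ P).Nonempty ∧ (Dv L u ∩ Q).Nonempty)) :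
    ∃ H' : Subgroup (FreeGroup α), L ≤ H' ∧ H' ≤ H ∧ H' ≠ H ∧ IsFF (H'.subgroupOf H) ∧
      EE H' ≤ EE H := by
  -- exchange P and Q if necessary
  have hex : ∃ P Q : Set (α × Bool), P ∪ Q = Dv H v ∧ Disjoint P Q ∧ P.Nonempty ∧ Q.Nonempty ∧
      (∀ u : FreeGroup α ⧸ L, Subgroup.quotientMapOfLE hLH u = v →
      ¬ ((Dv L u ∩ P).Nonempty ∧ (Dv L u ∩ Q).Nonempty)) ∧
      ∀ y ∈ D L, SP_d v P (SP_b H) y = false := by
    by_cases hb : SP_b H = v
    · have h1 := hns (SP_b L) (by rw [← hb]; rfl)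
      have h2 : Dv L (SP_b L) = D L := by
        rw [SP_b, Dv_coe, inv_one, cj_one]
      rw [h2] at h1
      by_cases h3 : (D L ∩ P).Nonempty
      · have h4 : ¬ (D L ∩ Q).Nonempty := fun h => h1 ⟨h3, h⟩
        refine ⟨Q, P, by rw [Set.union_comm]; exact hPQ, hd.symm, hQ, hP,
          fun u hu h => hns u hu ⟨h.2, h.1⟩, fun y hy => ?_⟩
        unfold SP_d
        rw [decide_eq_false_iff_not]
        rintro ⟨_, h5⟩
        exact h4 ⟨y, hy, h5⟩
      · refine ⟨P, Q, hPQ, hd, hP, hQ, hns, fun y hy => ?_⟩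
        unfold SP_d
        rw [decide_eq_false_iff_not]
        rintro ⟨_, h5⟩
        exact h3 ⟨y, hy, h5⟩
    · refine ⟨P, Q, hPQ, hd, hP, hQ, hns, fun y hy => ?_⟩
      unfold SP_d
      rw [decide_eq_false_iff_not]
      rintro ⟨h5, _⟩
      exact hb h5
  clear hPQ hd hP hQ hns
  obtain ⟨P, Q, hPQ, hd, ⟨y, hy⟩, ⟨z, hz⟩, hns, hbase⟩ := hex
  have hle : SP_H' v P ≤ H := fun g hg => ((SP_mem_H' v P g).1 hg).1
  refine ⟨SP_H' v P, ?_, hle, ?_, SP_ff v P, SP_EE v P hH hle⟩
  · intro l hl
    rw [SP_mem_H']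
    refine ⟨hLH hl, SP_L v P L hLH hn hbase ?_ l hl⟩
    intro g y z hg hy hz hyP
    by_contra hzP
    have hu : Subgroup.quotientMapOfLE hLH ((g⁻¹ : FreeGroup α) : FreeGroup α ⧸ L) = v := by
      rw [← hg, SP_smul_b]; rfl
    have h1 : Dv L ((g⁻¹ : FreeGroup α) : FreeGroup α ⧸ L) = D (cj L g) := by
      rw [Dv_coe, inv_inv]
    have h2 : Dv H v = D (cj H g) := by
      rw [← hg, SP_smul_b, Dv_coe, inv_inv]
    have h3 := hns _ hu
    rw [h1] at h3
    refine h3 ⟨⟨y, hy, hyP⟩, ⟨z, hz, ?_⟩⟩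
    have h4 : z ∈ P ∪ Q := by
      rw [hPQ, h2]; exact SP_dir_mono hLH g hz
    exact h4.resolve_left hzP
  · intro he
    have hK : ∀ k ∈ H, SP_NC v P (SP_b H) false k.toWord := by
      intro k hk
      rw [← he] at hk
      exact ((SP_mem_H' v P k).1 hk).2
    induction v using QuotientGroup.induction_on with
    | H g =>
      rw [Dv_coe] at hPQ
      have h1 : y ∈ D (cj H g⁻¹) := by rw [← hPQ]; exact Or.inl hy
      have h2 : z ∈ D (cj H g⁻¹) := by rw [← hPQ]; exact Or.inr hz
      have h3 := SP_dir _ P H hK g⁻¹ y z h1 h2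
      rw [SP_smul_b, inv_inv] at h3
      unfold SP_d at h3
      rw [decide_eq_decide] at h3
      have h4 := (h3.1 ⟨rfl, hy⟩).2
      exact Set.disjoint_left.1 hd h4 hz

end SP

end Pool.Agent.helper22.EC
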